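import Pool.Agent.H65.NV.PTargets

/-! Board nvk_modules, row P_PE1: a periodic function of one variable is close to its mean. -/

set_option autoImplicit false

open MeasureTheory Set Filter NumberField NumberField.InfinitePlace
open Pool.Agent.H65.CM4 Pool.Agent.H61.NVK Pool.Agent.H89.NV Pool.Agent.H65.NV
open scoped Real

namespace Pool.Agent.H24.NVP_PE1

private theorem one_step (g : ℝ → ℝ) (L : ℝ) (hd : Differentiable ℝ g)
    (hp : ∀ x, g (x + 1) = g x) (hL : ∀ x, |deriv g x| ≤ L) (x : ℝ) :
    |g x - ∫ y in (0 : ℝ)..1, g y| ≤ L := by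
  have hL0 : 0 ≤ L := (abs_nonneg _).trans (hL 0)
  have hper : Function.Periodic g 1 := hp
  have h1 : ∫ y in (0 : ℝ)..1, g y = ∫ y in (x - 1)..x, g y := by
    have h2 := hper.intervalIntegral_add_eq 0 (x - 1)
    rw [zero_add, sub_add_cancel] at h2
    exact h2
  have hint : IntervalIntegrable g volume (x - 1) x := hd.continuous.intervalIntegrable _ _
  have h3 : g x - ∫ y in (0 : ℝ)..1, g y = ∫ y in (x - 1)..x, (g x - g y) := by
    rw [intervalIntegral.integral_sub intervalIntegrable_const hint, h1,
      intervalIntegral.integral_const]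
    rw [smul_eq_mul]
    ring
  rw [h3]
  have h4 := intervalIntegral.norm_integral_le_of_norm_le_const (a := x - 1) (b := x)
    (f := fun y => g x - g y) (C := L) (by
      intro y hy
      have hle : x - 1 ≤ x := by linarith
      rw [uIoc_of_le hle] at hy
      have h5 : ‖g x - g y‖ ≤ L * ‖x - y‖ := by
        refine Convex.norm_image_sub_le_of_norm_deriv_le (s := Set.univ) (fun z _ => hd z) ?_
          convex_univ (Set.mem_univ y) (Set.mem_univ x)
        intro z _
        rw [Real.norm_eq_abs]
        exact hL z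
      have h6 : ‖x - y‖ ≤ 1 := by
        rw [Real.norm_eq_abs, abs_le]
        constructor
        · linarith [hy.2]
        · linarith [hy.1]
      calc ‖g x - g y‖ ≤ L * ‖x - y‖ := h5
        _ ≤ L * 1 := mul_le_mul_of_nonneg_left h6 hL0
        _ = L := mul_one L)
  rw [Real.norm_eq_abs] at h4
  have h7 : |x - (x - 1)| = 1 := by
    have : x - (x - 1) = 1 := by ring
    rw [this, abs_one]
  rw [h7, mul_one] at h4
  exact h4

private theorem all_steps (L : ℝ) : ∀ (m : ℕ) (g : ℝ → ℝ), ContDiff ℝ ((m + 1 : ℕ) : ℕ∞) g →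
    (∀ x, g (x + 1) = g x) → (∀ x, |iteratedDeriv (m + 1) g x| ≤ L) →
    ∀ x, |g x - ∫ y in (0 : ℝ)..1, g y| ≤ L := by
  intro m
  induction m with
  | zero =>
    intro g hg hp hL x
    refine one_step g L (hg.differentiable (by norm_num)) hp ?_ x
    intro z
    have := hL z
    rw [zero_add, iteratedDeriv_one] at this
    exact this
  | succ m ih =>
    intro g hg hp hL x
    have hd : Differentiable ℝ g := hg.differentiable (by
      simp)
    have hg' : ContDiff ℝ ((m + 1 : ℕ) : ℕ∞) (deriv g) := by
      have h1 : ContDiff ℝ (((m + 1 : ℕ) : ℕ∞) + 1) g := by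
        exact_mod_cast hg
      exact (contDiff_succ_iff_deriv.1 h1).2.2
    have hp' : ∀ x, deriv g (x + 1) = deriv g x := by
      intro x
      have h1 : (fun y => g (y + 1)) = g := funext hp
      have h2 : deriv (fun y => g (y + 1)) x = deriv g (x + 1) := deriv_comp_add_const g 1 x
      rw [h1] at h2
      exact h2.symm
    have hL' : ∀ x, |iteratedDeriv (m + 1) (deriv g) x| ≤ L := by
      intro x
      rw [← iteratedDeriv_succ']
      exact hL x
    have h1 := ih (deriv g) hg' hp' hL'
    have h2 : ∫ y in (0 : ℝ)..1, deriv g y = 0 := by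
      rw [intervalIntegral.integral_deriv_eq_sub (fun z _ => hd z)
        (hg'.continuous.intervalIntegrable _ _)]
      have := hp 0
      rw [zero_add] at this
      rw [this, sub_self]
    refine one_step g L hd hp ?_ x
    intro z
    have h3 := h1 z
    rw [h2, sub_zero] at h3
    exact h3

theorem pf_PE1 : T_PE1 := by
  intro m g L hm hg hp hL
  obtain ⟨m', rfl⟩ := Nat.exists_eq_add_of_le' hm
  exact all_steps L m' g (by exact_mod_cast hg) hp hL 0

end Pool.Agent.H24.NVP_PE1
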